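import Mathlib
import Pool.Agent.Helper805.CHS.Drawn

/-!
# Self-complementary graphs on nine vertices have a `K₅` minor

If `σ` is an isomorphism from a graph on at least nine vertices to its complement, then the pairs
`{x, σ x}` with `x ~ σ x` (together with the fixed point of `σ`) are the branch sets of a
`K₅` minor.
-/

set_option autoImplicit false

open Pool.Agent.Helper805.CHS

namespace Pool.Agent.H975R2.Bip

theorem k5_of_anti {V : Type} [Fintype V] (hV : 9 ≤ Fintype.card V) (G : SimpleGraph V)
    (σ : V ≃ V) (h : ∀ u v, u ≠ v → (G.Adj (σ u) (σ v) ↔ ¬ G.Adj u v)) : K5Model G := by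
  classical
  set R : Finset V := Finset.univ.filter (fun x => G.Adj x (σ x) ∨ σ x = x) with hR
  have hcov : (Finset.univ : Finset V) ⊆ R ∪ R.image σ := by
    intro y _
    rw [Finset.mem_union]
    by_cases hy : σ y = y
    · left; simp [hR, hy]
    · by_cases hy2 : G.Adj y (σ y)
      · left; simp [hR, hy2]
      · right
        rw [Finset.mem_image]
        refine ⟨σ.symm y, ?_, by simp⟩
        have hne : σ.symm y ≠ y := by
          intro h1
          apply hy
          rw [Equiv.symm_apply_eq] at h1
          exact h1.symm
        have h2 := h (σ.symm y) y hne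
        rw [Equiv.apply_symm_apply] at h2
        simp only [hR, Finset.mem_filter, Finset.mem_univ, true_and, Equiv.apply_symm_apply]
        left
        by_contra h3
        exact hy2 (h2.mpr h3)
  have hcard : 5 ≤ R.card := by
    have h1 := Finset.card_le_card hcov
    have h2 := Finset.card_union_le R (R.image σ)
    have h3 : (R.image σ).card ≤ R.card := Finset.card_image_le
    rw [Finset.card_univ] at h1
    omega
  obtain ⟨T, hTR, hT⟩ := Finset.exists_subset_card_eq hcard
  let e : Fin 5 ≃ T := (T.equivFinOfCardEq hT).symm
  let g : Fin 5 → V := fun i => (e i : V)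
  have hginj : ∀ i j, i ≠ j → g i ≠ g j := by
    intro i j hij hg
    exact hij (e.injective (Subtype.ext hg))
  have hgR : ∀ i, G.Adj (g i) (σ (g i)) ∨ σ (g i) = g i := by
    intro i
    have := hTR (e i).2
    simpa [hR] using this
  -- key: no rep is the image of another rep
  have hkey : ∀ i j, i ≠ j → g i ≠ σ (g j) := by
    intro i j hij hg
    rcases hgR j with h1 | h1
    · have hne : g j ≠ σ (g j) := h1.ne
      have h2 := h (g j) (σ (g j)) hne
      rcases hgR i with h3 | h3
      · rw [hg] at h3
        exact (h2.mp h3) h1
      · rw [hg] at h3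
        exact hne (σ.injective h3).symm
    · exact hginj i j hij (hg.trans h1)
  refine ⟨fun i => {g i, σ (g i)}, ?_, ?_, ?_⟩
  · intro i
    rcases hgR i with h1 | h1
    · exact SimpleGraph.induce_pair_connected_of_adj h1
    · have hs : ({g i, σ (g i)} : Set V) = {g i} := by rw [h1]; simp
      show (G.induce ({g i, σ (g i)} : Set V)).Connected
      rw [hs]
      haveI : Nonempty ({g i} : Set V) := ⟨⟨g i, rfl⟩⟩
      exact SimpleGraph.Connected.of_subsingleton
  · intro i j hij
    rw [Set.disjoint_left]
    rintro x (rfl | rfl) (h2 | h2)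
    · exact hginj i j hij h2
    · exact hkey i j hij h2
    · exact hkey j i hij.symm h2.symm
    · exact hginj i j hij (σ.injective h2)
  · intro i j hij
    by_cases hadj : G.Adj (g i) (g j)
    · exact ⟨g i, Or.inl rfl, g j, Or.inl rfl, hadj⟩
    · exact ⟨σ (g i), Or.inr rfl, σ (g j), Or.inr rfl, (h _ _ (hginj i j hij)).mpr hadj⟩

end Pool.Agent.H975R2.Bip
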