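import Mathlib

/-!
# A biplanar drawing of `K₉` with one crossing
-/

set_option autoImplicit false

namespace Pool.Agent.H975R2.Bip

/-- integer positions of the nine vertices in the two planes -/
def P : Fin 2 → Fin 9 → ℤ × ℤ :=
  ![![(6,5), (10,2), (0,0), (3,2), (6,3), (10,7), (2,6), (7,3), (3,4)],
    ![(4,7), (4,8), (3,6), (2,11), (5,4), (2,3), (6,8), (0,1), (11,3)]]

/-- edges of the first plane -/
def E0 : List (Fin 9 × Fin 9) :=
  [(0,1), (0,5), (0,6), (0,7), (1,2), (1,4), (1,5), (1,7), (2,3), (2,6), (2,8), (3,4), (3,8),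
   (4,6), (4,7), (5,6), (6,7)]

/-- the plane of an edge -/
def col (u v : Fin 9) : Fin 2 :=
  if (u, v) ∈ E0 ∨ (v, u) ∈ E0 then 0 else 1

/-- orientation -/
def o (a b q : ℤ × ℤ) : ℤ := (b.1 - a.1) * (q.2 - a.2) - (b.2 - a.2) * (q.1 - a.1)

/-- the line through `a b` separates the open segment `a b` from the open segment `q r` -/
def sep (a b q r : ℤ × ℤ) : Bool :=
  (decide (0 ≤ o a b q) && decide (0 ≤ o a b r) || decide (o a b q ≤ 0) && decide (o a b r ≤ 0)) &&
    (decide (o a b q ≠ 0) || decide (o a b r ≠ 0))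

/-- the crossing pair -/
def special (i : Fin 2) (a b c d : Fin 9) : Bool :=
  decide (i = 1) &&
   (decide ((a, b, c, d) = (2,7,3,5)) || decide ((a, b, c, d) = (2,7,5,3)) ||
    decide ((a, b, c, d) = (7,2,3,5)) || decide ((a, b, c, d) = (7,2,5,3)) ||
    decide ((a, b, c, d) = (3,5,2,7)) || decide ((a, b, c, d) = (5,3,2,7)) ||
    decide ((a, b, c, d) = (3,5,7,2)) || decide ((a, b, c, d) = (5,3,7,2)))

theorem all_sep : ∀ i : Fin 2, ∀ a b : Fin 9, a ≠ b → col a b = i → ∀ c d : Fin 9, c ≠ d →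
    col c d = i → ¬ (a = c ∧ b = d) → ¬ (a = d ∧ b = c) →
    (sep (P i a) (P i b) (P i c) (P i d) = true ∨ sep (P i c) (P i d) (P i a) (P i b) = true ∨
      special i a b c d = true) := by
  decide +kernel

theorem all_gen : ∀ i : Fin 2, ∀ a b c : Fin 9, a ≠ b → b ≠ c → a ≠ c →
    o (P i a) (P i b) (P i c) ≠ 0 := by
  decide +kernel

theorem col_symm : ∀ a b : Fin 9, col a b = col b a := by
  decide +kernel

/-- a point as a complex number -/
noncomputable def cpt (a : ℤ × ℤ) : ℂ := ⟨(a.1 : ℝ), (a.2 : ℝ)⟩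

/-- the segment -/
noncomputable def seg (a b : ℤ × ℤ) (t : ℝ) : ℂ := ((1 - t : ℝ) : ℂ) * cpt a + (t : ℂ) * cpt b

lemma seg_re (a b : ℤ × ℤ) (t : ℝ) : (seg a b t).re = (1 - t) * a.1 + t * b.1 := by
  simp [seg, cpt]

lemma seg_im (a b : ℤ × ℤ) (t : ℝ) : (seg a b t).im = (1 - t) * a.2 + t * b.2 := by
  simp [seg, cpt]

/-- real orientation -/
noncomputable def oR (a b : ℤ × ℤ) (z : ℂ) : ℝ :=
  ((b.1 : ℝ) - a.1) * (z.im - a.2) - ((b.2 : ℝ) - a.2) * (z.re - a.1)

lemma oR_seg_self (a b : ℤ × ℤ) (t : ℝ) : oR a b (seg a b t) = 0 := by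
  simp only [oR, seg_re, seg_im]; ring

lemma oR_seg (a b q r : ℤ × ℤ) (t : ℝ) :
    oR a b (seg q r t) = (1 - t) * (o a b q : ℝ) + t * (o a b r : ℝ) := by
  simp only [oR, seg_re, seg_im, o]; push_cast; ring

lemma oR_cpt (a b q : ℤ × ℤ) : oR a b (cpt q) = (o a b q : ℝ) := by
  simp only [oR, cpt, o]; push_cast; ring

lemma sep_ne {a b q r : ℤ × ℤ} (h : sep a b q r = true) {t s : ℝ} (hs : 0 < s) (hs1 : s < 1) :
    seg a b t ≠ seg q r s := by
  intro he
  have h1 := oR_seg_self a b t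
  rw [he, oR_seg] at h1
  have hs' : 0 < 1 - s := by linarith
  simp only [sep, Bool.and_eq_true, Bool.or_eq_true, decide_eq_true_eq] at h
  obtain ⟨h2, h3⟩ := h
  rcases h2 with ⟨h4, h5⟩ | ⟨h4, h5⟩
  · have h4' : (0:ℝ) ≤ (o a b q : ℝ) := by exact_mod_cast h4
    have h5' : (0:ℝ) ≤ (o a b r : ℝ) := by exact_mod_cast h5
    rcases h3 with h3 | h3
    · have h6 : (0:ℝ) < (o a b q : ℝ) := lt_of_le_of_ne h4' (by exact_mod_cast (Ne.symm h3))
      nlinarith [mul_pos hs' h6, mul_nonneg hs.le h5']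
    · have h6 : (0:ℝ) < (o a b r : ℝ) := lt_of_le_of_ne h5' (by exact_mod_cast (Ne.symm h3))
      nlinarith [mul_pos hs h6, mul_nonneg hs'.le h4']
  · have h4' : (o a b q : ℝ) ≤ 0 := by exact_mod_cast h4
    have h5' : (o a b r : ℝ) ≤ 0 := by exact_mod_cast h5
    rcases h3 with h3 | h3
    · have h6 : (o a b q : ℝ) < 0 := lt_of_le_of_ne h4' (by exact_mod_cast h3)
      nlinarith [mul_pos hs' (neg_pos.mpr h6), mul_nonneg hs.le (neg_nonneg.mpr h5')]
    · have h6 : (o a b r : ℝ) < 0 := lt_of_le_of_ne h5' (by exact_mod_cast h3)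
      nlinarith [mul_pos hs (neg_pos.mpr h6), mul_nonneg hs'.le (neg_nonneg.mpr h4')]

lemma seg_cont (a b : ℤ × ℤ) : Continuous (seg a b) := by
  unfold seg
  fun_prop

lemma seg_zero (a b : ℤ × ℤ) : seg a b 0 = cpt a := by simp [seg]

lemma seg_one (a b : ℤ × ℤ) : seg a b 1 = cpt b := by simp [seg]

lemma seg_rev (a b : ℤ × ℤ) (t : ℝ) : seg b a t = seg a b (1 - t) := by
  simp only [seg]; push_cast; ring

lemma seg_inj {a b : ℤ × ℤ} (h : a ≠ b) : Function.Injective (seg a b) := by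
  intro t s hts
  have h1 : (seg a b t).re = (seg a b s).re := by rw [hts]
  have h2 : (seg a b t).im = (seg a b s).im := by rw [hts]
  rw [seg_re, seg_re] at h1
  rw [seg_im, seg_im] at h2
  by_contra hne
  apply h
  have hne' : t - s ≠ 0 := sub_ne_zero.mpr hne
  have h3 : (t - s) * ((b.1 : ℝ) - a.1) = 0 := by linarith
  have h4 : (t - s) * ((b.2 : ℝ) - a.2) = 0 := by linarith
  have h5 := (mul_eq_zero.mp h3).resolve_left hne'
  have h6 := (mul_eq_zero.mp h4).resolve_left hne'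
  have h7 : (a.1 : ℝ) = b.1 := by linarith
  have h8 : (a.2 : ℝ) = b.2 := by linarith
  exact Prod.ext (by exact_mod_cast h7) (by exact_mod_cast h8)

lemma cpt_inj {a b : ℤ × ℤ} (h : cpt a = cpt b) : a = b := by
  have h1 : (cpt a).re = (cpt b).re := by rw [h]
  have h2 : (cpt a).im = (cpt b).im := by rw [h]
  simp only [cpt] at h1 h2
  exact Prod.ext (by exact_mod_cast h1) (by exact_mod_cast h2)

theorem P_inj : ∀ i : Fin 2, ∀ a b : Fin 9, P i a = P i b → a = b := by
  decide +kernel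

lemma seg_ne_pt (i : Fin 2) (u v w : Fin 9) (huv : u ≠ v) {t : ℝ} (h0 : 0 < t) (h1 : t < 1) :
    seg (P i u) (P i v) t ≠ cpt (P i w) := by
  have hP : P i u ≠ P i v := fun h => huv (P_inj i u v h)
  intro h
  by_cases hwu : w = u
  · subst hwu
    rw [← seg_zero (P i w) (P i v)] at h
    have := seg_inj hP h
    linarith
  · by_cases hwv : w = v
    · subst hwv
      rw [← seg_one (P i u) (P i w)] at h
      have := seg_inj hP h
      linarith
    · have h2 := oR_seg_self (P i u) (P i v) t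
      rw [h, oR_cpt] at h2
      exact all_gen i u v w huv (Ne.symm hwv) (Ne.symm hwu) (by exact_mod_cast h2)

/-- the crossing point -/
noncomputable def z0 : ℂ := ⟨2, 13 / 3⟩

lemma cross_pt {z : ℂ} (h1 : oR (3,6) (0,1) z = 0) (h2 : oR (2,11) (2,3) z = 0) : z = z0 := by
  simp only [oR] at h1 h2
  push_cast at h1 h2
  have hre : z.re = 2 := by linarith
  have him : z.im = 13 / 3 := by rw [hre] at h1; linarith
  exact Complex.ext hre him

lemma oR_symm (a b : ℤ × ℤ) (z : ℂ) (h : oR a b z = 0) : oR b a z = 0 := by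
  simp only [oR] at h ⊢
  linarith

end Pool.Agent.H975R2.Bip
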