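import Mathlib
import Pool.Agent.H975R2.BipComb
import Pool.Agent.H975R2.BipDraw

set_option autoImplicit false

open Pool.Agent.Helper805.CHS

namespace Pool.Agent.H975R2.Bip

/-- the set of labelled crossings of a biplanar drawing -/
def Cr {V : Type} (G : SimpleGraph V) (c : V → V → Fin 2) (γ : Fin 2 → V → V → ℝ → ℂ) :
    Set (Fin 2 × V × V × V × V × ℂ) :=
  {x : Fin 2 × V × V × V × V × ℂ |
            G.Adj x.2.1 x.2.2.1 ∧ G.Adj x.2.2.2.1 x.2.2.2.2.1 ∧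
            c x.2.1 x.2.2.1 = x.1 ∧ c x.2.2.2.1 x.2.2.2.2.1 = x.1 ∧
            ¬ (x.2.1 = x.2.2.2.1 ∧ x.2.2.1 = x.2.2.2.2.1) ∧
            ¬ (x.2.1 = x.2.2.2.2.1 ∧ x.2.2.1 = x.2.2.2.1) ∧
            (∃ t : ℝ, 0 < t ∧ t < 1 ∧ γ x.1 x.2.1 x.2.2.1 t = x.2.2.2.2.2) ∧
            (∃ t : ℝ, 0 < t ∧ t < 1 ∧ γ x.1 x.2.2.2.1 x.2.2.2.2.1 t = x.2.2.2.2.2)}

/-- the drawing data conditions -/
def Dr {V : Type} (G : SimpleGraph V) (c : V → V → Fin 2) (p : Fin 2 → V → ℂ)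
    (γ : Fin 2 → V → V → ℝ → ℂ) : Prop :=
  (∀ u v : V, G.Adj u v → c u v = c v u) ∧
          (∀ i : Fin 2, Function.Injective (p i)) ∧
          (∀ i : Fin 2, ∀ u v : V, G.Adj u v → c u v = i →
            ContinuousOn (γ i u v) (Set.Icc (0:ℝ) 1) ∧
            Set.InjOn (γ i u v) (Set.Icc (0:ℝ) 1) ∧
            γ i u v 0 = p i u ∧ γ i u v 1 = p i v ∧
            (∀ t : ℝ, 0 ≤ t → t ≤ 1 → γ i v u t = γ i u v (1 - t)) ∧
            ∀ t : ℝ, 0 < t → t < 1 → ∀ w : V, γ i u v t ≠ p i w)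

/-- a drawing with finitely many crossings -/
def DrF {V : Type} (G : SimpleGraph V) (c : V → V → Fin 2) (p : Fin 2 → V → ℂ)
    (γ : Fin 2 → V → V → ℝ → ℂ) : Prop :=
  (∀ u v : V, G.Adj u v → c u v = c v u) ∧
          (∀ i : Fin 2, Function.Injective (p i)) ∧
          (∀ i : Fin 2, ∀ u v : V, G.Adj u v → c u v = i →
            ContinuousOn (γ i u v) (Set.Icc (0:ℝ) 1) ∧
            Set.InjOn (γ i u v) (Set.Icc (0:ℝ) 1) ∧
            γ i u v 0 = p i u ∧ γ i u v 1 = p i v ∧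
            (∀ t : ℝ, 0 ≤ t → t ≤ 1 → γ i v u t = γ i u v (1 - t)) ∧
            ∀ t : ℝ, 0 < t → t < 1 → ∀ w : V, γ i u v t ≠ p i w) ∧
          Set.Finite (Cr G c γ)

/-- our drawing -/
noncomputable def γ₀ (i : Fin 2) (u v : Fin 9) (t : ℝ) : ℂ := seg (P i u) (P i v) t

/-- our vertex positions -/
noncomputable def p₀ (i : Fin 2) (u : Fin 9) : ℂ := cpt (P i u)

theorem dr₀ : Dr (⊤ : SimpleGraph (Fin 9)) col p₀ γ₀ := by
  refine ⟨fun u v _ => col_symm u v, ?_, ?_⟩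
  · intro i u v h
    exact P_inj i u v (cpt_inj h)
  · intro i u v huv _
    have hne : u ≠ v := huv
    have hP : P i u ≠ P i v := fun h => hne (P_inj i u v h)
    refine ⟨(seg_cont _ _).continuousOn, (seg_inj hP).injOn, seg_zero _ _, seg_one _ _, ?_, ?_⟩
    · intro t _ _
      exact seg_rev _ _ t
    · intro t h0 h1 w
      exact seg_ne_pt i u v w hne h0 h1

/-- the eight labellings of the crossing -/
def F8 : Finset (Fin 9 × Fin 9 × Fin 9 × Fin 9) :=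
  {(2,7,3,5), (2,7,5,3), (7,2,3,5), (7,2,5,3), (3,5,2,7), (5,3,2,7), (3,5,7,2), (5,3,7,2)}

lemma special_F8 {i : Fin 2} {a b c d : Fin 9} (h : special i a b c d = true) :
    i = 1 ∧ (a, b, c, d) ∈ F8 := by
  simp only [special, Bool.and_eq_true, Bool.or_eq_true, decide_eq_true_eq] at h
  refine ⟨h.1, ?_⟩
  simp only [F8, Finset.mem_insert, Finset.mem_singleton]
  tauto

lemma F8_pt : ∀ x ∈ F8, ∀ z : ℂ, oR (P 1 x.1) (P 1 x.2.1) z = 0 →
    oR (P 1 x.2.2.1) (P 1 x.2.2.2) z = 0 → z = z0 := by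
  intro x hx z h1 h2
  have e2 : P 1 2 = (3,6) := rfl
  have e7 : P 1 7 = (0,1) := rfl
  have e3 : P 1 3 = (2,11) := rfl
  have e5 : P 1 5 = (2,3) := rfl
  simp only [F8, Finset.mem_insert, Finset.mem_singleton] at hx
  rcases hx with rfl | rfl | rfl | rfl | rfl | rfl | rfl | rfl <;>
    simp only [e2, e7, e3, e5] at h1 h2
  · exact cross_pt h1 h2
  · exact cross_pt h1 (oR_symm _ _ _ h2)
  · exact cross_pt (oR_symm _ _ _ h1) h2
  · exact cross_pt (oR_symm _ _ _ h1) (oR_symm _ _ _ h2)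
  · exact cross_pt h2 h1
  · exact cross_pt h2 (oR_symm _ _ _ h1)
  · exact cross_pt (oR_symm _ _ _ h2) h1
  · exact cross_pt (oR_symm _ _ _ h2) (oR_symm _ _ _ h1)

theorem cr₀_sub : Cr (⊤ : SimpleGraph (Fin 9)) col γ₀ ⊆
    (fun x : Fin 9 × Fin 9 × Fin 9 × Fin 9 =>
      ((1 : Fin 2), x.1, x.2.1, x.2.2.1, x.2.2.2, z0)) '' (F8 : Set (Fin 9 × Fin 9 × Fin 9 × Fin 9)) := by
  rintro ⟨i, a, b, c, d, z⟩ ⟨hab, hcd, hc1, hc2, hn1, hn2, ⟨t, ht0, ht1, ht⟩, ⟨s, hs0, hs1, hs⟩⟩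
  simp only at hab hcd hc1 hc2 hn1 hn2 ht hs
  have hab' : a ≠ b := hab
  have hcd' : c ≠ d := hcd
  have ht' : seg (P i a) (P i b) t = z := ht
  have hs' : seg (P i c) (P i d) s = z := hs
  rcases all_sep i a b hab' hc1 c d hcd' hc2 hn1 hn2 with h | h | h
  · exact absurd (ht'.trans hs'.symm) (sep_ne h hs0 hs1)
  · exact absurd (hs'.trans ht'.symm) (sep_ne h ht0 ht1)
  · obtain ⟨hi, hF⟩ := special_F8 h
    subst hi
    have h1 : oR (P 1 a) (P 1 b) z = 0 := by rw [← ht']; exact oR_seg_self _ _ _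
    have h2 : oR (P 1 c) (P 1 d) z = 0 := by rw [← hs']; exact oR_seg_self _ _ _
    have hz := F8_pt _ hF z h1 h2
    exact ⟨(a, b, c, d), hF, by simp [hz]⟩

theorem cr₀_finite : (Cr (⊤ : SimpleGraph (Fin 9)) col γ₀).Finite :=
  ((F8.finite_toSet).image _).subset cr₀_sub

theorem cr₀_card : (Cr (⊤ : SimpleGraph (Fin 9)) col γ₀).ncard ≤ 8 := by
  refine (Set.ncard_le_ncard cr₀_sub ((F8.finite_toSet).image _)).trans ?_
  refine (Set.ncard_image_le F8.finite_toSet).trans ?_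
  rw [Set.ncard_coe_finset]
  decide

/-- two crossings in different planes give at least sixteen labelled crossings -/
theorem sixteen {V : Type} (G : SimpleGraph V) (c : V → V → Fin 2) (p : Fin 2 → V → ℂ)
    (γ : Fin 2 → V → V → ℝ → ℂ) (hD : Dr G c p γ) (hfin : (Cr G c γ).Finite)
    (h : ∀ i : Fin 2, ∃ a b a' b' z, (i, a, b, a', b', z) ∈ Cr G c γ) :
    16 ≤ (Cr G c γ).ncard := by
  choose a b a' b' z hz using h
  let f : Fin 2 × Bool × Bool × Bool → Fin 2 × V × V × V × V × ℂ := fun x =>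
    match x with
    | (i, false, false, false) => (i, a i, b i, a' i, b' i, z i)
    | (i, false, false, true) => (i, a i, b i, b' i, a' i, z i)
    | (i, false, true, false) => (i, b i, a i, a' i, b' i, z i)
    | (i, false, true, true) => (i, b i, a i, b' i, a' i, z i)
    | (i, true, false, false) => (i, a' i, b' i, a i, b i, z i)
    | (i, true, false, true) => (i, a' i, b' i, b i, a i, z i)
    | (i, true, true, false) => (i, b' i, a' i, a i, b i, z i)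
    | (i, true, true, true) => (i, b' i, a' i, b i, a i, z i)
  have hrev : ∀ i u v y, G.Adj u v → c u v = i → (∃ t : ℝ, 0 < t ∧ t < 1 ∧ γ i u v t = y) →
      (∃ t : ℝ, 0 < t ∧ t < 1 ∧ γ i v u t = y) := by
    rintro i u v y huv hc ⟨t, h0, h1, h2⟩
    refine ⟨1 - t, by linarith, by linarith, ?_⟩
    have := (hD.2.2 i u v huv hc).2.2.2.2.1 (1 - t) (by linarith) (by linarith)
    rw [this, ← h2]
    congr 1
    ring
  have hmem : ∀ x, f x ∈ Cr G c γ := by
    rintro ⟨i, x1, x2, x3⟩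
    obtain ⟨h1, h2, h3, h4, h5, h6, h7, h8⟩ := hz i
    simp only at h1 h2 h3 h4 h5 h6 h7 h8
    have h3' : c (b i) (a i) = i := by rw [← hD.1 _ _ h1]; exact h3
    have h4' : c (b' i) (a' i) = i := by rw [← hD.1 _ _ h2]; exact h4
    have h7' := hrev _ _ _ _ h1 h3 h7
    have h8' := hrev _ _ _ _ h2 h4 h8
    have h1' := h1.symm
    have h2' := h2.symm
    cases x1 <;> cases x2 <;> cases x3
    · exact ⟨h1, h2, h3, h4, h5, h6, h7, h8⟩
    · exact ⟨h1, h2', h3, h4', fun h => h6 h, fun h => h5 h, h7, h8'⟩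
    · exact ⟨h1', h2, h3', h4, fun h => h6 ⟨h.2, h.1⟩, fun h => h5 ⟨h.2, h.1⟩, h7', h8⟩
    · exact ⟨h1', h2', h3', h4', fun h => h5 ⟨h.2, h.1⟩, fun h => h6 ⟨h.2, h.1⟩, h7', h8'⟩
    · exact ⟨h2, h1, h4, h3, fun h => h5 ⟨h.1.symm, h.2.symm⟩, fun h => h6 ⟨h.2.symm, h.1.symm⟩,
        h8, h7⟩
    · exact ⟨h2, h1', h4, h3', fun h => h6 ⟨h.2.symm, h.1.symm⟩, fun h => h5 ⟨h.1.symm, h.2.symm⟩,
        h8, h7'⟩
    · exact ⟨h2', h1, h4', h3, fun h => h6 ⟨h.1.symm, h.2.symm⟩, fun h => h5 ⟨h.2.symm, h.1.symm⟩,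
        h8', h7⟩
    · exact ⟨h2', h1', h4', h3', fun h => h5 ⟨h.2.symm, h.1.symm⟩, fun h => h6 ⟨h.1.symm, h.2.symm⟩,
        h8', h7'⟩
  have hinj : Function.Injective f := by
    rintro ⟨i, x1, x2, x3⟩ ⟨j, y1, y2, y3⟩ hf
    have hij : i = j := by
      have : (f (i, x1, x2, x3)).1 = (f (j, y1, y2, y3)).1 := by rw [hf]
      cases x1 <;> cases x2 <;> cases x3 <;> cases y1 <;> cases y2 <;> cases y3 <;> exact this
    subst hij
    obtain ⟨h1, h2, h3, h4, h5, h6, h7, h8⟩ := hz i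
    simp only at h1 h2 h5 h6
    have n1 := h1.ne
    have n2 := h2.ne
    have n1' := h1.ne'
    have n2' := h2.ne'
    cases x1 <;> cases x2 <;> cases x3 <;> cases y1 <;> cases y2 <;> cases y3 <;>
      first
      | rfl
      | (exfalso
         simp only [f, Prod.mk.injEq, true_and, and_true] at hf
         grind)
  have h1 : Set.range f ⊆ Cr G c γ := by
    rintro _ ⟨x, rfl⟩
    exact hmem x
  have h2 := Set.ncard_le_ncard h1 hfin
  have h3 : (Set.range f).ncard = 16 := by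
    rw [← Set.image_univ, Set.ncard_image_of_injective _ hinj, Set.ncard_univ]
    simp [Nat.card_eq_fintype_card]
  omega

/-- a plane without crossings gives a drawing -/
theorem isDrawing {V : Type} (G : SimpleGraph V) (c : V → V → Fin 2) (p : Fin 2 → V → ℂ)
    (γ : Fin 2 → V → V → ℝ → ℂ) (hD : Dr G c p γ) (i : Fin 2)
    (h : ¬ ∃ a b a' b' z, (i, a, b, a', b', z) ∈ Cr G c γ) :
    IsDrawing (SimpleGraph.fromRel (fun u v => G.Adj u v ∧ c u v = i)) (p i)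
      (fun u v t => γ i u v (t : ℝ)) := by
  have hadj : ∀ u v, (SimpleGraph.fromRel (fun u v => G.Adj u v ∧ c u v = i)).Adj u v →
      G.Adj u v ∧ c u v = i := by
    intro u v huv
    rw [SimpleGraph.fromRel_adj] at huv
    rcases huv.2 with h1 | h1
    · exact h1
    · exact ⟨h1.1.symm, (hD.1 _ _ h1.1).symm.trans h1.2⟩
  have hends : ∀ t : unitInterval, (0 < (t : ℝ) ∧ (t : ℝ) < 1) ∨ (t : ℝ) = 0 ∨ (t : ℝ) = 1 := by
    intro t
    have h0 := t.2.1
    have h1 := t.2.2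
    rcases eq_or_lt_of_le h0 with h2 | h2
    · exact Or.inr (Or.inl h2.symm)
    · rcases eq_or_lt_of_le h1 with h3 | h3
      · exact Or.inr (Or.inr h3)
      · exact Or.inl ⟨h2, h3⟩
  refine ⟨hD.2.1 i, ?_, ?_, ?_, ?_, ?_⟩
  · intro u v huv
    obtain ⟨h1, h2⟩ := hadj u v huv
    exact (hD.2.2 i u v h1 h2).1.comp_continuous continuous_subtype_val (fun t => t.2)
  · intro u v huv
    obtain ⟨h1, h2⟩ := hadj u v huv
    simpa using (hD.2.2 i u v h1 h2).2.2.1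
  · intro u v huv
    obtain ⟨h1, h2⟩ := hadj u v huv
    simpa using (hD.2.2 i u v h1 h2).2.2.2.1
  · intro u v huv w t ht
    obtain ⟨h1, h2⟩ := hadj u v huv
    obtain ⟨_, _, e0, e1, _, e2⟩ := hD.2.2 i u v h1 h2
    rcases hends t with h3 | h3 | h3
    · exact absurd ht (e2 t h3.1 h3.2 w)
    · left
      rw [h3, e0] at ht
      exact (hD.2.1 i ht).symm
    · right
      rw [h3, e1] at ht
      exact (hD.2.1 i ht).symm
  · intro u v w x huv hwx n1 n2 n3 n4 t s hts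
    obtain ⟨h1, h2⟩ := hadj u v huv
    obtain ⟨h1', h2'⟩ := hadj w x hwx
    obtain ⟨_, _, e0, e1, _, e2⟩ := hD.2.2 i u v h1 h2
    obtain ⟨_, _, e0', e1', _, e2'⟩ := hD.2.2 i w x h1' h2'
    rcases hends t with h3 | h3 | h3
    · exfalso
      rcases hends s with h4 | h4 | h4
      · apply h
        exact ⟨u, v, w, x, γ i w x s, h1, h1', h2, h2', fun h => n1 h.1, fun h => n2 h.1,
          ⟨t, h3.1, h3.2, hts⟩, ⟨s, h4.1, h4.2, rfl⟩⟩
      · rw [h4, e0'] at hts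
        exact e2 t h3.1 h3.2 w hts
      · rw [h4, e1'] at hts
        exact e2 t h3.1 h3.2 x hts
    · left
      simp only [h3, e0]
    · right
      simp only [h3, e1]

theorem main : ¬ (∀ (V : Type) [Finite V] (G : SimpleGraph V),
      (G = ⊤ ∨ ∃ a b : ℕ, Nonempty (G ≃g completeBipartiteGraph (Fin a) (Fin b))) →
      Even (Set.ncard G.edgeSet) →
      ∃ (c : V → V → Fin 2) (p : Fin 2 → V → ℂ) (γ : Fin 2 → V → V → ℝ → ℂ),
        DrF G c p γ ∧
        Nonempty (SimpleGraph.fromRel (fun u v => G.Adj u v ∧ c u v = 0) ≃g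
          SimpleGraph.fromRel (fun u v => G.Adj u v ∧ c u v = 1)) ∧
        ∀ (c' : V → V → Fin 2) (p' : Fin 2 → V → ℂ) (γ' : Fin 2 → V → V → ℝ → ℂ),
          DrF G c' p' γ' → (Cr G c γ).ncard ≤ (Cr G c' γ').ncard) := by
  intro H
  have hev : Even (Set.ncard (⊤ : SimpleGraph (Fin 9)).edgeSet) := by
    have h1 : Set.ncard (⊤ : SimpleGraph (Fin 9)).edgeSet = 36 := by
      rw [← SimpleGraph.coe_edgeFinset, Set.ncard_coe_finset,
        SimpleGraph.card_edgeFinset_top_eq_card_choose_two]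
      rfl
    rw [h1]
    decide
  obtain ⟨c, p, γ, ⟨hDa, hDb, hDc, hfin⟩, ⟨φ⟩, hopt⟩ := H (Fin 9) ⊤ (Or.inl rfl) hev
  have hD : Dr (⊤ : SimpleGraph (Fin 9)) c p γ := ⟨hDa, hDb, hDc⟩
  have hle := (hopt col p₀ γ₀ ⟨dr₀.1, dr₀.2.1, dr₀.2.2, cr₀_finite⟩).trans cr₀_card
  -- one of the planes has no crossing
  have hex : ∃ i : Fin 2, ¬ ∃ a b a' b' z, (i, a, b, a', b', z) ∈ Cr (⊤ : SimpleGraph (Fin 9)) c γ := by
    by_contra hcon
    push Not at hcon
    have := sixteen _ c p γ hD hfin hcon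
    omega
  obtain ⟨i, hi⟩ := hex
  have hdraw := isDrawing _ c p γ hD i hi
  refine no_K5Model hdraw ?_
  -- adjacency in the two planes
  have hadj : ∀ (j : Fin 2) (u v : Fin 9), u ≠ v →
      ((SimpleGraph.fromRel (fun u v => (⊤ : SimpleGraph (Fin 9)).Adj u v ∧ c u v = j)).Adj u v ↔
        c u v = j) := by
    intro j u v huv
    rw [SimpleGraph.fromRel_adj]
    have hs : c u v = c v u := hD.1 u v huv
    constructor
    · rintro ⟨_, h1 | h1⟩
      · exact h1.2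
      · rw [hs]; exact h1.2
    · intro h1
      exact ⟨huv, Or.inl ⟨huv, h1⟩⟩
  have h2 : ∀ x : Fin 2, x = 0 ∨ x = 1 := by decide
  have hcard : 9 ≤ Fintype.card (Fin 9) := by simp
  rcases h2 i with rfl | rfl
  · refine k5_of_anti hcard _ φ.toEquiv ?_
    intro u v huv
    have huv' : φ u ≠ φ v := fun h => huv (φ.injective h)
    have h3 := φ.map_adj_iff (v := u) (w := v)
    rw [hadj 1 _ _ huv'] at h3
    change ((SimpleGraph.fromRel _).Adj (φ u) (φ v) ↔ _)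
    rw [hadj 0 _ _ huv', ← h3]
    rcases h2 (c (φ u) (φ v)) with h4 | h4 <;> simp [h4]
  · refine k5_of_anti hcard _ φ.symm.toEquiv ?_
    intro u v huv
    have huv' : φ.symm u ≠ φ.symm v := fun h => huv (φ.symm.injective h)
    have h3 := φ.symm.map_adj_iff (v := u) (w := v)
    rw [hadj 0 _ _ huv'] at h3
    change ((SimpleGraph.fromRel _).Adj (φ.symm u) (φ.symm v) ↔ _)
    rw [hadj 1 _ _ huv', ← h3]
    rcases h2 (c (φ.symm u) (φ.symm v)) with h4 | h4 <;> simp [h4]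

end Pool.Agent.H975R2.Bip
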